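import Pool.Agent.Lib.MP_c4714e_nt.Fin

/-! The ranks of the signed Mordell-Weil groups over the layers `K_{m,n}`. -/

set_option autoImplicit false

namespace Pool.Agent.Results.MP_c4714e_nt.SignedRanks

open Finset Pool.Agent.Lib.MP_c4714e_nt

/-- The rank identity
`rk E(K_{m,n}) + rk E(K_{m,0}) + rk E(K_{0,n}) + rk E(F) = ∑_{s,z} rk E^{s,z}(K_{m_s,n_z})`,
where `m_s` is `m - 1` if `m ≥ 1` and `m - 1` has the parity of the sign `s`, and `m` otherwise. -/
theorem result {p : ℕ} [Fact p.Prime] {F Ω : Type} [Field F] [NumberField F] [Field Ω]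
    [Algebra F Ω] [IsAbelianGalois F Ω] (T : Layers p F Ω) (E : WeierstrassCurve F) (m n : ℕ) :
    rkE (Pt E (T.K m n)) + rkE (Pt E (T.K m 0)) + rkE (Pt E (T.K 0 n)) + rkE (Pt E (T.K 0 0)) =
      ∑ s ∈ range 2, ∑ z ∈ range 2, rkE (signed T E (red s m) (red z n) s z) :=
  rank_identity T E m n

end Pool.Agent.Results.MP_c4714e_nt.SignedRanks
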